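import Pool.Agent.TH678.TQ.Final
import Pool.Agent.TH678.TG.Change

/-! The number of changed strings and the exponents `s > 1` -/

namespace Pool.Agent.TH678.TQ

open Pool.Agent.NPC Pool.Agent.H622R2 Pool.Agent.H620R2.Gauge Filter Pool.Agent.TH678.ETH
  Pool.Agent.W900.CH MeasureTheory Pool.Agent.TH678.TG
open Pool.Agent.H628R3.RO (randomOracle)

/-- every oracle can be changed at the strings which the gauge permits -/
theorem exists_close_fastQ {g : ℕ → ℝ} (hg : ∀ᶠ n : ℕ in atTop, 0 ≤ g n) (O : Oracle) :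
    ∃ A, Close g O A ∧ FastQ (fun N => g (Nat.log 2 N - 1)) A := by
  classical
  obtain ⟨b, Φ, hΦ1, hΦ2⟩ := exists_fastQ (fun N => g (Nat.log 2 N - 1))
  refine ⟨Φ O, ?_, hΦ2 O⟩
  unfold Close
  filter_upwards [hg] with n hn
  have h5 := dist_le_of_off (O := O) (A := Φ O)
    (T := Set.range (cz (fun N => g (Nat.log 2 N - 1)) b)) (fun y hy => hΦ1 O y hy) n
  have h6 : (dist O (Φ O) n : ℝ) ≤ (((Finset.range (2 ^ (n + 1))).filter
      (fun i => str i ∈ Set.range (cz (fun N => g (Nat.log 2 N - 1)) b))).card : ℝ) := by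
    exact_mod_cast h5
  refine h6.trans ?_
  rcases countz (fun N => g (Nat.log 2 N - 1)) b (2 ^ (n + 1)) with h | h
  · rw [h]
    simpa using hn
  · refine h.trans (le_of_eq ?_)
    rw [Nat.log_pow (by norm_num), Nat.add_sub_cancel]

/-- the condition on the number of changes -/
def CG (s : ℝ) (g : ℕ → ℝ) : Prop :=
  ∀ ε : ℝ, 0 < ε → ∃ᶠ n : ℕ in atTop, g n ≤ 2 ^ (ε * (n : ℝ) ^ (1 / s))

theorem CQ_gau {s : ℝ} (hs : 0 < s) {g : ℕ → ℝ} (hg : CG s g) (n₁ : ℕ) : CQ s (gau g n₁) := by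
  intro ε hε
  have hs' : 0 < 1 / s := by positivity
  have e1 : ∀ᶠ n : ℕ in atTop, ((n : ℝ) + 1) ≤ 2 ^ (ε / 2 * (n : ℝ) ^ (1 / s)) := by
    have hlog2 : 0 < Real.log 2 := Real.log_pos (by norm_num)
    have h := (isLittleO_rpow_exp_pos_mul_atTop s (show 0 < ε / 2 * Real.log 2 by positivity)).def
      (show (0 : ℝ) < 1 / 2 by norm_num)
    have ht := tendsto_rpow_atTop hs'
    filter_upwards [tendsto_nat.eventually (ht.eventually h),
      tendsto_nat.eventually_ge_atTop 1] with n h1 h2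
    have h3 : 0 ≤ (n : ℝ) ^ (1 / s) := by positivity
    rw [Real.norm_eq_abs, Real.norm_eq_abs, abs_of_nonneg (Real.rpow_nonneg h3 _),
      abs_of_nonneg (Real.exp_nonneg _), ← Real.rpow_mul (by linarith),
      one_div_mul_cancel hs.ne', Real.rpow_one] at h1
    rw [Real.rpow_def_of_pos (by norm_num : (0 : ℝ) < 2)]
    have h4 : Real.log 2 * (ε / 2 * (n : ℝ) ^ (1 / s)) =
        ε / 2 * Real.log 2 * (n : ℝ) ^ (1 / s) := by ring
    rw [h4]
    linarith
  have key : ∃ᶠ n : ℕ in atTop,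
      gau g n₁ (2 ^ n) ≤ 2 ^ (ε * (Real.logb 2 ((2 ^ n : ℕ) : ℝ)) ^ (1 / s)) := by
    refine ((hg (ε / 2) (by positivity)).and_eventually (e1.and
      (eventually_ge_atTop n₁))).mono ?_
    rintro n ⟨h1, h2, h3⟩
    have hll : Real.logb 2 ((2 ^ n : ℕ) : ℝ) = n := by
      push_cast
      rw [Real.logb_pow, Real.logb_self_eq_one (by norm_num), mul_one]
    rw [hll]
    refine (gau_pow h3 (by positivity) h1).trans ?_
    calc (2 : ℝ) ^ (ε / 2 * (n : ℝ) ^ (1 / s)) * (n + 1)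
        ≤ 2 ^ (ε / 2 * (n : ℝ) ^ (1 / s)) * 2 ^ (ε / 2 * (n : ℝ) ^ (1 / s)) := by gcongr
      _ = 2 ^ (ε * (n : ℝ) ^ (1 / s)) := by
          rw [← Real.rpow_add (by norm_num)]
          congr 1
          ring
  exact (tendsto_pow_atTop_atTop_of_one_lt (by norm_num : 1 < 2)).frequently key

theorem not_CQ_of_CG {s : ℝ} (hs : 0 < s) {g : ℕ → ℝ} (hg : ¬ CG s g) :
    ¬ CQ s (fun N => g (Nat.log 2 N - 1)) := by
  have hs' : 0 < 1 / s := by positivity
  unfold CG at hg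
  push Not at hg
  obtain ⟨ε, hε, hg⟩ := hg
  unfold CQ
  push Not
  refine ⟨ε * (1 / 2) ^ (1 / s), by positivity, ?_⟩
  have ht : Tendsto (fun N : ℕ => Nat.log 2 N - 1) atTop atTop :=
    (tendsto_sub_atTop_nat 1).comp tendsto_natlog
  filter_upwards [ht.eventually hg, tendsto_natlog.eventually_ge_atTop 4,
    eventually_ge_atTop 4] with N h1 h5 h4
  refine lt_of_le_of_lt ?_ h1
  apply Real.rpow_le_rpow_of_exponent_le (by norm_num)
  have h6 : Real.logb 2 N ≤ 2 * ((Nat.log 2 N - 1 : ℕ) : ℝ) := by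
    have h7 : N < 2 ^ (Nat.log 2 N + 1) := Nat.lt_pow_succ_log_self (by norm_num) N
    have h8 : Real.logb 2 N ≤ ((Nat.log 2 N + 1 : ℕ) : ℝ) := by
      rw [Real.logb_le_iff_le_rpow (by norm_num) (by positivity), Real.rpow_natCast]
      exact_mod_cast h7.le
    refine h8.trans ?_
    have h9 : Nat.log 2 N + 1 ≤ 2 * (Nat.log 2 N - 1) := by omega
    exact_mod_cast h9
  rw [mul_assoc, ← Real.mul_rpow (by norm_num) (logb_nn N)]
  apply mul_le_mul_of_nonneg_left _ hε.le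
  apply Real.rpow_le_rpow (by have := logb_nn N; positivity) _ hs'.le
  linarith

theorem not_CG_nonneg {s : ℝ} {g : ℕ → ℝ} (hg : ¬ CG s g) : ∀ᶠ n : ℕ in atTop, 0 ≤ g n := by
  unfold CG at hg
  push Not at hg
  obtain ⟨ε, hε, hg⟩ := hg
  filter_upwards [hg] with n hn
  have : (0 : ℝ) ≤ 2 ^ (ε * (n : ℝ) ^ (1 / s)) := by positivity
  linarith

theorem change_Q {s : ℝ} (hs : 1 < s) (g : ℕ → ℝ) :
    (CG s g → ∀ᵐ O ∂randomOracle, ∀ A, Close g O A → ¬ TimeN s A (Hit A)ᶜ) ∧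
    (¬ CG s g → ∀ O : Oracle, ∃ A, Close g O A ∧
      ∀ L, IsNQL A L ∨ IsRQL A L → PadIn s A L ∧ TimeD s A L ∧ TimeD s A Lᶜ) := by
  have hs0 : 0 < s := by linarith
  constructor
  · intro h
    refine ae_far_gau (S := {A | TimeN s A (Hit A)ᶜ}) fun n₁ => ?_
    exact null_Q hs.le (CQ_gau hs0 h n₁) _ fun A hA => by rw [← hit_eq]; exact hA
  · intro h O
    obtain ⟨A, h1, h2⟩ := exists_close_fastQ (not_CG_nonneg h) O
    refine ⟨A, h1, fun L hL => ?_⟩
    have h3 := fastQ_pad hs (not_CQ_of_CG hs0 h) h2 L hL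
    exact ⟨h3, h3.timeD hs, (h3.timeD hs).compl⟩

theorem not_CG_self {s κ : ℝ} (hκ : 0 < κ) :
    ¬ CG s (fun n => 2 ^ (κ * (n : ℝ) ^ (1 / s))) := by
  intro h
  obtain ⟨n, h1, h2⟩ := ((h (κ / 2) (by positivity)).and_eventually
    (tendsto_nat.eventually_ge_atTop 1)).exists
  have h3 : 0 < (n : ℝ) ^ (1 / s) := by positivity
  have h4 : (2 : ℝ) ^ (κ / 2 * (n : ℝ) ^ (1 / s)) < 2 ^ (κ * (n : ℝ) ^ (1 / s)) := by
    apply Real.rpow_lt_rpow_of_exponent_lt (by norm_num)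
    nlinarith
  linarith

theorem ae_exactQ {s κ : ℝ} (hs : 1 < s) :
    ∀ᵐ O ∂randomOracle, ∀ A, Close (fun n => 2 ^ (κ * (n : ℝ) ^ (1 / s))) O A →
      ∀ δ < s, ¬ TimeN δ A (Hit A)ᶜ := by
  have hs0 : 0 < s := by linarith
  have h := ae_far_gau (g := fun n => 2 ^ (κ * (n : ℝ) ^ (1 / s)))
    (S := {A | ∃ δ < s, TimeN δ A (Hit A)ᶜ}) (fun n₁ => by
    refine (null_iUnion (fun m : ℕ => {A : Oracle | TimeN (max (s - 1 / ((m : ℝ) + 1)) 1) A
      (Hit A)ᶜ}) fun m => ?_).mono ?_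
    · have hm : 0 < 1 / ((m : ℝ) + 1) := by positivity
      set s' := max (s - 1 / ((m : ℝ) + 1)) 1 with hs'
      have hms : s' < s := max_lt (by linarith) hs
      have hs1 : 1 ≤ s' := le_max_right _ _
      refine null_Q hs1 (CQ_gau (by linarith) ?_ n₁) _ fun A hA => by rw [← hit_eq]; exact hA
      intro ε hε
      have hd : 0 < 1 / s' - 1 / s := by
        have := one_div_lt_one_div_of_lt (by linarith) hms
        linarith
      refine Eventually.frequently ?_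
      filter_upwards [tendsto_nat.eventually_ge_atTop 1,
        tendsto_nat.eventually ((tendsto_rpow_atTop hd).eventually_ge_atTop (κ / ε))]
        with n h1 h2
      apply Real.rpow_le_rpow_of_exponent_le (by norm_num)
      have h3 : (n : ℝ) ^ (1 / s') = (n : ℝ) ^ (1 / s) * (n : ℝ) ^ (1 / s' - 1 / s) := by
        rw [← Real.rpow_add (by linarith)]
        congr 1
        ring
      have h4 : 0 < (n : ℝ) ^ (1 / s) := by positivity
      rw [div_le_iff₀ hε] at h2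
      rw [h3]
      nlinarith
    · rintro A ⟨δ, hδ, hA⟩
      obtain ⟨m, hm⟩ := exists_nat_one_div_lt (show 0 < s - δ by linarith)
      refine Set.mem_iUnion.2 ⟨m, hA.mono ?_⟩
      refine le_trans ?_ (le_max_left _ _)
      linarith)
  filter_upwards [h] with O hO A hA δ hδ hP
  exact hO A hA ⟨δ, hδ, hP⟩

end Pool.Agent.TH678.TQ
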