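import Pool.Agent.TH678.TQ.Defs
import Pool.Agent.TH678.TG.Core

/-! A countable family of local predicates is coded into the oracle, at all the places which the
gauge permits -/

namespace Pool.Agent.TH678.TQ

open Pool.Agent.NPC Pool.Agent.H622R2 Pool.Agent.H620R2.Gauge Pool.Agent.H622R2.Exp Finset
  MeasureTheory Filter Pool.Agent.TH678.ETH Pool.Agent.TH678.TG

/-- the codes that are used -/
def IZ (f : ℕ → ℝ) (b : ℕ → ℕ → ℕ) : Type :=
  {p : ℕ × List Bool × ℕ // b p.1 p.2.1.length ≤ 2 ^ p.2.2 ∧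
    Pf f (p.1 + p.2.1.length + 2) p.2.2}

/-- the code -/
def cz (f : ℕ → ℝ) (b : ℕ → ℕ → ℕ) (p : IZ f b) : List Bool :=
  cd p.1.2.2 (pr p.1.1 p.1.2.1)

theorem cz_inj (f : ℕ → ℝ) (b : ℕ → ℕ → ℕ) : Function.Injective (cz f b) := by
  rintro ⟨⟨e, x, i⟩, h⟩ ⟨⟨e', x', i'⟩, h'⟩ hh
  obtain ⟨h1, h2⟩ := cd_inj hh
  obtain ⟨h3, h4⟩ := CC.rep_inj _ _ _ _ h2
  subst h1 h3 h4
  rfl

open Classical in
theorem countz (f : ℕ → ℝ) (b : ℕ → ℕ → ℕ) (N : ℕ) :
    ((Finset.range N).filter (fun i => str i ∈ Set.range (cz f b))).card = 0 ∨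
      (((Finset.range N).filter (fun i => str i ∈ Set.range (cz f b))).card : ℝ) ≤ f N := by
  set S := (Finset.range N).filter (fun i => str i ∈ Set.range (cz f b)) with hS
  rcases S.eq_empty_or_nonempty with h0 | hne
  · left
    rw [h0]
    rfl
  · right
    have key : ∀ n ∈ S, ∃ (e : ℕ) (x : List Bool) (i : ℕ), n = idx (cd i (pr e x)) ∧
        2 ^ 2 ^ i ≤ N ∧ Pf f (e + x.length + 2) i := by
      intro n hn
      rw [hS, Finset.mem_filter, Finset.mem_range] at hn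
      obtain ⟨h1, ⟨⟨e, x, i⟩, h2⟩, h3⟩ := hn
      have h4 : cd i (pr e x) = str n := h3
      refine ⟨e, x, i, by rw [h4, idx_str], ?_, h2.2⟩
      have h5 := le_idx (cd i (pr e x))
      rw [h4, idx_str] at h5
      have h6 : 2 ^ 2 ^ i ≤ 2 ^ (str n).length := by
        rw [← h4, length_cd]
        exact Nat.pow_le_pow_right (by norm_num) (by omega)
      omega
    choose! ee xx ii k1 k2 k3 using key
    obtain ⟨m, hm, hmax⟩ := Finset.exists_max_image S (fun n => ee n + (xx n).length + 2) hne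
    set I := Nat.findGreatest (fun i => 2 ^ 2 ^ i ≤ N) N with hI
    have hlt : ∀ i, 2 ^ 2 ^ i ≤ N → i ≤ N := by
      intro i hi
      have h2 : i < 2 ^ 2 ^ i := lt_trans Nat.lt_two_pow_self
        (Nat.pow_lt_pow_right (by norm_num) Nat.lt_two_pow_self)
      omega
    have hbd : ∀ i, 2 ^ 2 ^ i ≤ N → i ≤ I := fun i hi => Nat.le_findGreatest (hlt i hi) hi
    have hIN : 2 ^ 2 ^ I ≤ N := Nat.findGreatest_spec (P := fun i => 2 ^ 2 ^ i ≤ N)
      (hlt _ (k2 m hm)) (k2 m hm)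
    set t := ee m + (xx m).length + 2 with ht
    have h6 : ((I : ℝ) + 1) * 2 ^ t ≤ f N := k3 m hm I (hbd _ (k2 m hm)) N hIN
    have h7 : S ⊆ (Finset.range (I + 1) ×ˢ Finset.range (2 ^ t)).image
        (fun q : ℕ × ℕ => idx (cd q.1 (str q.2))) := by
      intro n hn
      have h1 := k1 n hn
      have h2 := k2 n hn
      rw [Finset.mem_image]
      refine ⟨(ii n, idx (pr (ee n) (xx n))), ?_, ?_⟩
      · rw [Finset.mem_product, Finset.mem_range, Finset.mem_range]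
        refine ⟨Nat.lt_succ_of_le (hbd _ h2), ?_⟩
        have h8 := hmax n hn
        have h9 := idx_lt (pr (ee n) (xx n))
        rw [length_pr] at h9
        have h10 : 2 ^ (ee n + 1 + (xx n).length + 1) ≤ 2 ^ t :=
          Nat.pow_le_pow_right (by norm_num) (by omega)
        show idx (pr (ee n) (xx n)) < 2 ^ t
        omega
      · show idx (cd (ii n) (str (idx (pr (ee n) (xx n))))) = n
        rw [str_idx, ← h1]
    have h8 : S.card ≤ (I + 1) * 2 ^ t := by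
      refine (Finset.card_le_card h7).trans (Finset.card_image_le.trans ?_)
      rw [Finset.card_product, Finset.card_range, Finset.card_range]
    have h9 : (S.card : ℝ) ≤ ((I : ℝ) + 1) * 2 ^ t := by exact_mod_cast h8
    linarith

theorem cut_cut (m n : ℕ) (h : m ≤ n) (A : Oracle) : CC.cut m (CC.cut n A) = CC.cut m A := by
  funext y
  unfold CC.cut
  split_ifs with h1 h2
  · rfl
  · omega
  · rfl

/-- the coded oracles -/
theorem exists_fam (f : ℕ → ℝ) (F : ℕ → Oracle → List Bool → Prop) (b : ℕ → ℕ → ℕ)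
    (hF : ∀ e A x, F e A x ↔ F e (CC.cut (b e x.length) A) x) : ∃ Φ : Oracle → Oracle,
    (∀ B, ∀ y ∉ Set.range (cz f b), Φ B y = B y) ∧ ∀ B e x i, b e x.length ≤ 2 ^ i →
      Pf f (e + x.length + 2) i → (F e (Φ B) x ↔ Φ B (cd i (pr e x)) = true) := by
  obtain ⟨Φ, hΦ1, hΦ2⟩ := exists_fix (cz f b) (cz_inj f b)
    (fun p A => F p.1.1 (CC.cut (2 ^ p.1.2.2) A) p.1.2.1) (by
      rintro ⟨⟨e, x, i⟩, h⟩ A A' hA
      have hcut : CC.cut (2 ^ i) A = CC.cut (2 ^ i) A' := by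
        funext z
        unfold CC.cut
        split_ifs with hz
        · apply hA
          show z.length < (cd i (pr e x)).length
          rw [length_cd]
          omega
        · rfl
      show F e (CC.cut (2 ^ i) A) x ↔ F e (CC.cut (2 ^ i) A') x
      rw [hcut])
  refine ⟨Φ, fun B y hy => ?_, fun B e x i h1 h2 => ?_⟩
  · apply hΦ1
    intro p h
    exact hy ⟨p, h.symm⟩
  · have h3 := hΦ2 B ⟨(e, x, i), h1, h2⟩
    have h4 : F e (CC.cut (2 ^ i) (Φ B)) x ↔ F e (Φ B) x := by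
      rw [hF e (CC.cut (2 ^ i) (Φ B)) x, cut_cut _ _ h1, ← hF]
    exact (h3.trans h4).symm

/-! ### The family -/

theorem exists_alg_or : ∃ g : ℕ → (Alg × ℕ) ⊕ (SAlg × ℕ), Function.Surjective g := by
  have h1 := CC.poly_countable
  have h2 := CC.salg_countable
  have h3 : Countable Alg := inferInstance
  obtain ⟨al⟩ : Nonempty SAlg := inferInstance
  have h4 : Nonempty ((Alg × ℕ) ⊕ (SAlg × ℕ)) := ⟨Sum.inr (al, 0)⟩
  exact exists_surjective_nat _

/-- the predicates of the family -/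
def Fm (g : ℕ → (Alg × ℕ) ⊕ (SAlg × ℕ)) (e : ℕ) (A : Oracle) (x : List Bool) : Prop :=
  match g e with
  | Sum.inl p => ∃ w : List Bool, w.length ≤ ql p.2 x.length ∧
      AccIn p.1 (ql p.2 x.length) A (pairBits w x)
  | Sum.inr p => CC.Acc p.1 (CC.cut (ql p.2 x.length) A) x

/-- the bounds for the questions -/
def bm (g : ℕ → (Alg × ℕ) ⊕ (SAlg × ℕ)) (e n : ℕ) : ℕ :=
  match g e with
  | Sum.inl p => ql p.2 n
  | Sum.inr p => ql p.2 n

theorem bm_le (g : ℕ → (Alg × ℕ) ⊕ (SAlg × ℕ)) (e : ℕ) : ∃ k, ∀ n, bm g e n = ql k n := by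
  unfold bm
  cases g e with
  | inl p => exact ⟨p.2, fun n => rfl⟩
  | inr p => exact ⟨p.2, fun n => rfl⟩

theorem Fm_local (g : ℕ → (Alg × ℕ) ⊕ (SAlg × ℕ)) (e : ℕ) (A : Oracle) (x : List Bool) :
    Fm g e A x ↔ Fm g e (CC.cut (bm g e x.length) A) x := by
  unfold Fm bm
  cases g e with
  | inl p =>
    simp only
    have h : upTo (ql p.2 x.length) (CC.cut (ql p.2 x.length) A) = upTo (ql p.2 x.length) A := by
      funext q
      unfold upTo CC.cut
      by_cases hq : q.length ≤ ql p.2 x.length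
      · rw [if_pos hq]
      · simp [hq]
    unfold AccIn
    rw [h]
  | inr p =>
    simp only
    rw [cut_cut _ _ le_rfl]

/-- all the languages of quasi-linear type can be asked at all the places which the gauge permits -/
def FastQ (f : ℕ → ℝ) (A : Oracle) : Prop :=
  ∀ L, IsNQL A L ∨ IsRQL A L → ∃ e k : ℕ, ∀ (x : List Bool) (i : ℕ), ql k x.length ≤ 2 ^ i →
    Pf f (e + x.length + 2) i → (x ∈ L ↔ A (cd i (pr e x)) = true)

theorem acc_of_reach {M : SAlg} {k : ℕ} {A : Oracle} {L : Set (List Bool)} (hM : ∀ x : List Bool,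
    (∀ s q, M.Reach A x s → M.act (pairBits x s) = false :: q → q.length ≤ ql k x.length) ∧
    ∃ s z, M.Reach A x s ∧ M.act (pairBits x s) = true :: z ∧ (x ∈ L ↔ z = [true]))
    (x : List Bool) : x ∈ L ↔ CC.Acc M (CC.cut (ql k x.length) A) x := by
  obtain ⟨hM1, s, z, hs, hz, hL⟩ := hM x
  have hcong : ∀ s, M.Reach (CC.cut (ql k x.length) A) x s ↔ M.Reach A x s := by
    refine CC.reach_congr (fun s => M.Reach A x s) (fun s hs => hs) ?_
    intro s q h1 h2
    unfold CC.cut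
    rw [if_pos (hM1 s q h1 h2)]
  constructor
  · intro hx
    refine ⟨s, (hcong s).2 hs, ?_⟩
    rw [hz, hL.1 hx]
  · rintro ⟨t, ht, ht2⟩
    have hst := CC.reach_unique hs ((hcong t).1 ht) ⟨_, hz⟩ ⟨_, ht2⟩
    rw [hst, ht2] at hz
    simp only [List.cons.injEq, true_and] at hz
    exact hL.2 hz.symm

theorem exists_fastQ (f : ℕ → ℝ) : ∃ (b : ℕ → ℕ → ℕ) (Φ : Oracle → Oracle),
    (∀ B, ∀ y ∉ Set.range (cz f b), Φ B y = B y) ∧ ∀ B, FastQ f (Φ B) := by
  obtain ⟨g, hg⟩ := exists_alg_or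
  obtain ⟨Φ, hΦ1, hΦ2⟩ := exists_fam f (Fm g) (bm g) (Fm_local g)
  refine ⟨bm g, Φ, hΦ1, fun B L hL => ?_⟩
  rcases hL with ⟨M, k, hM⟩ | ⟨M, k, hM⟩
  · obtain ⟨e, he⟩ := hg (Sum.inl (M, k))
    refine ⟨e, k, fun x i h1 h2 => ?_⟩
    have h3 : bm g e x.length = ql k x.length := by
      unfold bm
      rw [he]
    rw [← hΦ2 B e x i (by rw [h3]; exact h1) h2, hM]
    unfold Fm
    rw [he]
  · obtain ⟨e, he⟩ := hg (Sum.inr (M, k))
    refine ⟨e, k, fun x i h1 h2 => ?_⟩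
    have h3 : bm g e x.length = ql k x.length := by
      unfold bm
      rw [he]
    rw [← hΦ2 B e x i (by rw [h3]; exact h1) h2, acc_of_reach hM]
    unfold Fm
    rw [he]

theorem not_null_fastQ {f : ℕ → ℝ} (hf : ∀ᶠ N : ℕ in atTop, 0 ≤ f N) :
    ¬ Null f {A | FastQ f A} := by
  classical
  obtain ⟨b, Φ, hΦ1, hΦ2⟩ := exists_fastQ f
  obtain ⟨c, hc0, hc⟩ : ∃ c : ℝ, 0 ≤ c ∧ ∀ N, 0 ≤ f N + c := by
    obtain ⟨N₀, hN₀⟩ := Filter.eventually_atTop.1 hf
    exact exists_shift2 (N₀ := N₀) fun N hN => hN₀ N hN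
  refine not_null_of f Set.univ (by rw [measure_univ]; exact one_pos) Φ
    (Set.range (cz f b)) hΦ1 c (fun N => ?_) {A | FastQ f A} fun B _ => hΦ2 B
  rcases countz f b N with h | h
  · rw [h]
    simpa using hc N
  · linarith

end Pool.Agent.TH678.TQ
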