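import Pool.Agent.TH678.TG.Defs

/-!
# Polynomial time bounds with an exact exponent, relative to an oracle

(Continues `Pool.Agent.H620R2.Gauge.Defs`, `Pool.Agent.TH678.ETH.Rate` and
`Pool.Agent.TH678.TG.Defs`.)
-/

namespace Pool.Agent.TH678.TQ

open Pool.Agent.NPC Pool.Agent.H620R2.Gauge Pool.Agent.TH678.ETH Pool.Agent.TH678.TG

/-- The quasi-linear bounds `(n + 1) (log n + 2) ^ k`. -/
def ql (k n : ℕ) : ℕ := (n + 1) * (Nat.log 2 n + 2) ^ k

/-- Nondeterministic quasi-linear time relative to `A`: for some `k`, `x` is in `L` if and only if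
the algorithm accepts `⟨w, x⟩` for some `w`, where `w` has at most `ql k |x|` bits, and the
algorithm makes at most `ql k |x|` rounds, with questions of at most `ql k |x|` bits. -/
def IsNQL (A : Oracle) (L : Set (List Bool)) : Prop :=
  ∃ (M : Alg) (k : ℕ), ∀ x : List Bool, x ∈ L ↔ ∃ w : List Bool, w.length ≤ ql k x.length ∧
    AccIn M (ql k x.length) A (pairBits w x)

/-- Decidable relative to `A` with questions of quasi-linear length: some algorithm working on a
memory halts on all inputs and decides `L`, and all its questions on the input `x` have at most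
`ql k |x|` bits. There is no bound for the time and for the length of the memory. -/
def IsRQL (A : Oracle) (L : Set (List Bool)) : Prop :=
  ∃ (M : SAlg) (k : ℕ), ∀ x : List Bool,
    (∀ s q, M.Reach A x s → M.act (pairBits x s) = false :: q → q.length ≤ ql k x.length) ∧
    ∃ s z, M.Reach A x s ∧ M.act (pairBits x s) = true :: z ∧ (x ∈ L ↔ z = [true])

/-- The exponent `⌊s log n⌋ + c`: the number `2 ^ ex s c n` is, up to a factor between `1 / 2` and
`1`, equal to `2 ^ c * n ^ s`. -/
noncomputable def ex (s : ℝ) (c n : ℕ) : ℕ := ⌊s * Real.logb 2 n⌋₊ + c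

/-- For some `c` and `e`, a sufficiently long `x` is in `L` if and only if the string
`1 ^ t 0 1 ^ e 0 x` is in `A`, where `t = 2 ^ ex s c |x| = O(|x| ^ s)`. -/
def PadIn (s : ℝ) (A : Oracle) (L : Set (List Bool)) : Prop :=
  ∃ e c n₀ : ℕ, ∀ x : List Bool, n₀ ≤ x.length → (x ∈ L ↔
    A (List.replicate (2 ^ ex s c x.length) true ++
      false :: (List.replicate e true ++ false :: x)) = true)

/-- Deterministic time `O(n ^ s)` relative to `A`: for some `c`, some algorithm decides whether `x`
is in `L`, for all sufficiently long `x`, in `t = 2 ^ ex s c |x|` rounds with questions of at most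
`t` bits; besides `x` it gets `t` ones. -/
def TimeD (s : ℝ) (A : Oracle) (L : Set (List Bool)) : Prop :=
  ∃ (M : Alg) (c n₀ : ℕ), ∀ x : List Bool, n₀ ≤ x.length → ∃ z : List Bool,
    M.run (upTo (2 ^ ex s c x.length) A)
      (pairBits (List.replicate (2 ^ ex s c x.length) true) x) (2 ^ ex s c x.length) [] = some z ∧
    (x ∈ L ↔ z = [true])

/-- Nonuniform nondeterministic time `O(n ^ s)` relative to `A`. -/
def TimeN (s : ℝ) (A : Oracle) (L : Set (List Bool)) : Prop :=
  ∃ (M : Alg) (c : ℕ), ADec M (ex s c) A L

end Pool.Agent.TH678.TQ
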