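import Pool.Agent.TH678.TQ.Law
import Pool.Agent.TH678.TG.Final

/-! The exact gauges for the exponents `s > 1` -/

namespace Pool.Agent.TH678.TQ

open Pool.Agent.NPC Pool.Agent.H622R2 Pool.Agent.H620R2.Gauge Pool.Agent.H622R2.Exp Filter
  Pool.Agent.TH678.ETH Pool.Agent.TH678.TG

theorem ql_two (n : ℕ) : 3 * n + 1 ≤ ql 2 n := by
  unfold ql
  have h1 : 4 ≤ (Nat.log 2 n + 2) ^ 2 := by
    calc 4 = 2 ^ 2 := rfl
      _ ≤ (Nat.log 2 n + 2) ^ 2 := Nat.pow_le_pow_left (by omega) 2
  nlinarith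

/-- the hit language is in nondeterministic quasi-linear time -/
theorem hit_nql (A : Oracle) : IsNQL A (Hit A) := by
  refine ⟨A2.ttAlg V7.poly_Q V7.poly_H 0, 2, fun x => ?_⟩
  have hT := ql_two x.length
  set T := ql 2 x.length with hTd
  have hrun : ∀ w : List Bool, AccIn (A2.ttAlg V7.poly_Q V7.poly_H 0) T A (pairBits w x) ↔
      V7.H (pairBits w x, (V7.Q (pairBits w x)).map (upTo T A)) = [true] := by
    intro w
    unfold AccIn
    have hl : (V7.Q (pairBits w x)).length = x.length := by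
      unfold V7.Q
      rw [List.length_map, List.length_range, unpair_pairBits]
    have h1 := A2.tt_run V7.poly_Q V7.poly_H 0 (upTo T A) (pairBits w x) T 0 (Nat.zero_le _)
      (by rw [hl]; omega)
    rw [List.take_zero] at h1
    rw [h1, Option.some.injEq]
  have key : ∀ w : List Bool,
      V7.H (pairBits w x, (V7.Q (pairBits w x)).map (upTo T A)) = [true] ↔
      (w.length = x.length ∧ ∀ i < x.length, A (x ++ w ++ List.replicate i true) = true) := by
    intro w
    unfold V7.H V7.Q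
    simp only [unpair_pairBits, List.cons.injEq, and_true, Bool.and_eq_true, decide_eq_true_eq,
      List.all_eq_true, List.mem_map, List.mem_range]
    constructor
    · rintro ⟨h1, h2⟩
      refine ⟨h1, fun i hi => ?_⟩
      have h3 : upTo T A (x ++ w ++ List.replicate (min i x.length) true) = true :=
        h2 _ ⟨_, ⟨i, hi, rfl⟩, rfl⟩
      rw [min_eq_left hi.le] at h3
      unfold upTo at h3
      rw [Bool.and_eq_true] at h3
      exact h3.2
    · rintro ⟨h1, h2⟩
      refine ⟨h1, ?_⟩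
      rintro b ⟨_, ⟨i, hi, rfl⟩, rfl⟩
      rw [min_eq_left hi.le]
      unfold upTo
      rw [Bool.and_eq_true, decide_eq_true_eq]
      refine ⟨?_, h2 i hi⟩
      rw [List.length_append, List.length_append, List.length_replicate]
      omega
  constructor
  · rintro ⟨w, hw, h⟩
    exact ⟨w, by omega, (hrun w).2 ((key w).2 ⟨hw, h⟩)⟩
  · rintro ⟨w, _, h⟩
    exact ⟨w, (key w).1 ((hrun w).1 h)⟩

/-- padding gives an algorithm -/
theorem PadIn.timeD {s : ℝ} (hs : 1 < s) {A : Oracle} {L : Set (List Bool)} (h : PadIn s A L) :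
    TimeD s A L := by
  obtain ⟨e, c, n₀, hx⟩ := h
  obtain ⟨n₁, hn₁⟩ := eventually_atTop.1 (ql_small hs 0 e c)
  refine ⟨A2.ttAlg (poly_ask e) (Poly.snd Poly.id) 0, c + 1, n₀ + n₁, fun x hxl => ?_⟩
  have h1 := hn₁ x.length (by omega)
  have h2 : ex s (c + 1) x.length = ex s c x.length + 1 := rfl
  rw [h2]
  set i := ex s c x.length with hi
  have h3 := A2.tt_run (poly_ask e) (Poly.snd Poly.id) 0 (upTo (2 ^ (i + 1)) A)
    (pairBits (List.replicate (2 ^ (i + 1)) true) x) (2 ^ (i + 1)) 0 (Nat.zero_le _) (by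
      simp only [List.length_singleton]
      rw [pow_succ]
      omega)
  rw [List.take_zero] at h3
  refine ⟨_, h3, ?_⟩
  have h4 : upTo (2 ^ (i + 1)) A (ask e (pairBits (List.replicate (2 ^ (i + 1)) true) x)) =
      A (cd i (pr e x)) := by
    rw [ask_pad]
    unfold upTo
    rw [decide_eq_true, Bool.true_and]
    rw [length_cd, length_pr, pow_succ]
    omega
  simp only [List.map_cons, List.map_nil, h4, List.cons.injEq, and_true]
  exact hx x (by omega)

/-- the output is negated -/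
theorem exists_neg (M : Alg) : ∃ M' : Alg, ∀ (B : Oracle) (y : List Bool) (n : ℕ)
    (a z : List Bool), M.run B y n a = some z →
      M'.run B y n a = some (if z = [true] then [] else [true]) := by
  have hD := poly_of_polyTime M.poly
  have hN : Poly (fun z : List Bool => if (M.D z).head? = some false then M.D z else
      (if (M.D z).tail = [true] then [true] else [true, true])) := by
    refine Poly.ite (Poly.decide_eq (Poly.head? hD) (NPC.Poly.const _)) hD ?_
    exact Poly.ite (Poly.decide_eq (Poly.tail hD) (NPC.Poly.const _)) (NPC.Poly.const _)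
      (NPC.Poly.const _)
  refine ⟨⟨_, polyTime_of_poly_list hN, M.p⟩, fun B y n => ?_⟩
  induction n with
  | zero => intro a z h; simp [Alg.run] at h
  | succ n ih =>
    intro a z h
    rcases hq : M.D (pairBits y a) with _ | ⟨c, q⟩
    · simp only [Alg.run, hq, Option.some.injEq] at h
      subst h
      simp [Alg.run, hq]
    · cases c with
      | true =>
        simp only [Alg.run, hq, Option.some.injEq] at h
        subst h
        simp only [Alg.run, hq]
        by_cases hz : q = [true]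
        · simp [hz]
        · simp [hz]
      | false =>
        simp only [Alg.run, hq] at h
        simp only [Alg.run, hq]
        have := ih _ _ h
        simpa using this

theorem TimeD.compl {s : ℝ} {A : Oracle} {L : Set (List Bool)} (h : TimeD s A L) :
    TimeD s A Lᶜ := by
  obtain ⟨M, c, n₀, hM⟩ := h
  obtain ⟨M', hM'⟩ := exists_neg M
  refine ⟨M', c, n₀, fun x hx => ?_⟩
  obtain ⟨z, hz, hL⟩ := hM x hx
  refine ⟨_, hM' _ _ _ _ _ hz, ?_⟩
  rw [Set.mem_compl_iff, hL]
  by_cases h : z = [true] <;> simp [h]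

theorem TimeD.timeN {s : ℝ} {A : Oracle} {L : Set (List Bool)} (h : TimeD s A L) :
    TimeN s A L := by
  obtain ⟨M, c, n₀, hM⟩ := h
  obtain ⟨M', hM'⟩ := exists_ign M
  refine ⟨M', c, n₀, fun n hn => ⟨List.replicate (2 ^ ex s c n) true, 2 ^ ex s c n, by
    rw [List.length_replicate], le_rfl, ?_⟩⟩
  rintro x rfl
  obtain ⟨z, hz, hL⟩ := hM x hn
  rw [hL]
  unfold AccT
  constructor
  · intro h
    refine ⟨[], by simp, ?_⟩
    rw [hM', hz, h]
  · rintro ⟨w, _, hw⟩
    rw [hM', hz, Option.some.injEq] at hw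
    exact hw

theorem TimeN.mono {s s' : ℝ} (h : s ≤ s') {A : Oracle} {L : Set (List Bool)}
    (hA : TimeN s A L) : TimeN s' A L := by
  obtain ⟨M, c, n₀, hM⟩ := hA
  refine ⟨M, c, n₀, fun n hn => ?_⟩
  obtain ⟨a, t, h1, h2, h3⟩ := hM n hn
  have h4 : ex s c n ≤ ex s' c n := by
    unfold ex
    have := Nat.floor_le_floor (mul_le_mul_of_nonneg_right h (logb_nn n))
    omega
  have h5 : 2 ^ ex s c n ≤ 2 ^ ex s' c n := Nat.pow_le_pow_right (by norm_num) h4
  exact ⟨a, t, h1.trans h5, h2.trans h5, h3⟩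

/-- the capped gauge -/
theorem cap {f : ℕ → ℝ} {s : ℝ} (hs : 1 < s) (hf : ¬ CQ s f) :
    ∃ g : ℕ → ℝ, (∀ N, g N ≤ f N) ∧ ¬ CQ s g ∧
      Null g {A : Oracle | ∃ δ < s, TimeN δ A (Hit A)ᶜ} := by
  have hs0 : 0 < s := by linarith
  refine ⟨fun N => min (f N) (2 ^ (Real.logb 2 N) ^ (1 / s)), fun N => min_le_left _ _, ?_, ?_⟩
  · unfold CQ at hf ⊢
    push Not at hf ⊢
    obtain ⟨ε, hε, hf⟩ := hf
    refine ⟨min ε (1 / 2), lt_min hε (by norm_num), ?_⟩
    filter_upwards [hf, H529R3.Gap.tendsto_log.eventually_ge_atTop 1] with N h1 h2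
    have h3 : 0 < (Real.logb 2 N) ^ (1 / s) := by positivity
    refine lt_min ?_ ?_
    · refine lt_of_le_of_lt ?_ h1
      apply Real.rpow_le_rpow_of_exponent_le (by norm_num)
      exact mul_le_mul_of_nonneg_right (min_le_left _ _) h3.le
    · apply Real.rpow_lt_rpow_of_exponent_lt (by norm_num)
      have h4 : min ε (1 / 2) ≤ 1 / 2 := min_le_right _ _
      nlinarith
  · refine (null_iUnion (fun m : ℕ => {A : Oracle | TimeN (max (s - 1 / ((m : ℝ) + 1)) 1) A
      (Hit A)ᶜ}) fun m => ?_).mono ?_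
    · have hm : 0 < 1 / ((m : ℝ) + 1) := by positivity
      set s' := max (s - 1 / ((m : ℝ) + 1)) 1 with hs'
      have hms : s' < s := max_lt (by linarith) hs
      have hs1 : 1 ≤ s' := le_max_right _ _
      refine null_Q hs1 (f := fun N => min (f N) (2 ^ (Real.logb 2 N) ^ (1 / s))) ?_ _
        fun A hA => by rw [← hit_eq]; exact hA
      intro ε hε
      have hd : 0 < 1 / s' - 1 / s := by
        have := one_div_lt_one_div_of_lt (by linarith) hms
        linarith
      refine Eventually.frequently ?_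
      filter_upwards [H529R3.Gap.tendsto_log.eventually_ge_atTop 1,
        H529R3.Gap.tendsto_log.eventually ((tendsto_rpow_atTop hd).eventually_ge_atTop (1 / ε))]
        with N h1 h2
      refine (min_le_right _ _).trans ?_
      apply Real.rpow_le_rpow_of_exponent_le (by norm_num)
      have h3 : (Real.logb 2 N) ^ (1 / s') = (Real.logb 2 N) ^ (1 / s) *
          (Real.logb 2 N) ^ (1 / s' - 1 / s) := by
        rw [← Real.rpow_add (by linarith)]
        congr 1
        ring
      have h4 : 0 < (Real.logb 2 N) ^ (1 / s) := by positivity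
      rw [div_le_iff₀ hε] at h2
      rw [h3]
      nlinarith
    · rintro A ⟨δ, hδ, hA⟩
      obtain ⟨m, hm⟩ := exists_nat_one_div_lt (show 0 < s - δ by linarith)
      refine Set.mem_iUnion.2 ⟨m, hA.mono ?_⟩
      refine le_trans ?_ (le_max_left _ _)
      linarith

/-- **The law for the exponent `s`.** -/
theorem law_Q {s : ℝ} (hs : 1 < s) (f : ℕ → ℝ) (O : Set Oracle)
    (h1 : ∀ A : Oracle, (∀ L, IsNQL A L ∨ IsRQL A L → PadIn s A L) →
      (∀ δ < s, ¬ TimeN δ A (Hit A)ᶜ) → A ∈ O)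
    (h2 : ∀ A ∈ O, TimeN s A (Hit A)ᶜ) : Null f O ↔ CQ s f := by
  constructor
  · intro hn
    by_contra hcon
    obtain ⟨g, hg1, hg2, hg3⟩ := cap hs hcon
    have hgO : Null g O := H529R3.Lev.null_anti hg1 hn
    refine not_null_fastQ (not_CQ_nonneg hg2) ((null_union hgO hg3).mono ?_)
    intro A hA
    by_cases h3 : ∃ δ < s, TimeN δ A (Hit A)ᶜ
    · exact Or.inr h3
    · push Not at h3
      exact Or.inl (h1 A (fun L hL => fastQ_pad hs hg2 hA L hL) h3)
  · intro hf
    exact null_Q hs.le hf O fun A hA => by rw [← hit_eq]; exact h2 A hA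

theorem main_Q {s : ℝ} (hs : 1 < s) (f : ℕ → ℝ) :
    (∀ O : Set Oracle,
      (∀ A : Oracle, (∀ L, IsNQL A L ∨ IsRQL A L → PadIn s A L) →
        (∀ δ < s, ¬ TimeN δ A (Hit A)ᶜ) → A ∈ O) →
      (∀ A ∈ O, TimeN s A (Hit A)ᶜ) →
      (Null f O ↔
        ∀ ε : ℝ, 0 < ε → ∃ᶠ N : ℕ in atTop, f N ≤ 2 ^ (ε * (Real.logb 2 N) ^ (1 / s)))) ∧
    (Null f {A : Oracle | ∀ L, IsNQL A L → TimeD s A L} ↔
      ∀ ε : ℝ, 0 < ε → ∃ᶠ N : ℕ in atTop, f N ≤ 2 ^ (ε * (Real.logb 2 N) ^ (1 / s))) ∧
    (Null f {A : Oracle | (∀ L, IsNQL A L → TimeD s A L) ∧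
        ∀ δ < s, ∃ L, IsNQL A L ∧ ¬ TimeD δ A L} ↔
      ∀ ε : ℝ, 0 < ε → ∃ᶠ N : ℕ in atTop, f N ≤ 2 ^ (ε * (Real.logb 2 N) ^ (1 / s))) := by
  refine ⟨fun O h1 h2 => law_Q hs f O h1 h2, law_Q hs f _ ?_ ?_, law_Q hs f _ ?_ ?_⟩
  · intro A hA _ L hL
    exact (hA L (Or.inl hL)).timeD hs
  · intro A hA
    exact (hA _ (hit_nql A)).compl.timeN
  · intro A hA hA' 
    refine ⟨fun L hL => (hA L (Or.inl hL)).timeD hs, fun δ hδ => ⟨Hit A, hit_nql A, fun h => ?_⟩⟩
    exact hA' δ hδ h.compl.timeN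
  · intro A hA
    exact (hA.1 _ (hit_nql A)).compl.timeN

end Pool.Agent.TH678.TQ
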