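import Pool.Agent.TH678.TQ.Core
import Pool.Agent.TH678.TG.Hit
import Pool.Agent.TH678.TG.Pow

/-! The laws for the time bounds `O(n ^ s)` -/

namespace Pool.Agent.TH678.TQ

open Pool.Agent.NPC Pool.Agent.H622R2 Pool.Agent.H620R2.Gauge Pool.Agent.H622R2.Exp Finset
  MeasureTheory Filter Pool.Agent.TH678.ETH Pool.Agent.TH678.TG

/-- the condition on the gauge -/
def CQ (s : ℝ) (f : ℕ → ℝ) : Prop :=
  ∀ ε : ℝ, 0 < ε → ∃ᶠ N : ℕ in atTop, f N ≤ 2 ^ (ε * (Real.logb 2 N) ^ (1 / s))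

theorem logb_nn (n : ℕ) : 0 ≤ Real.logb 2 (n : ℝ) := by
  rcases Nat.eq_zero_or_pos n with rfl | h
  · simp
  · exact Real.logb_nonneg (by norm_num) (by exact_mod_cast h)

theorem two_rpow_log {s : ℝ} {n : ℕ} (hn : 1 ≤ n) : (2 : ℝ) ^ (s * Real.logb 2 n) = (n : ℝ) ^ s := by
  have h0 : (0 : ℝ) < n := by exact_mod_cast hn
  rw [mul_comm, Real.rpow_mul (by norm_num), Real.rpow_logb (by norm_num) (by norm_num) h0]

theorem ex_le {s : ℝ} (hs : 0 ≤ s) {n : ℕ} (hn : 1 ≤ n) (c : ℕ) :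
    (2 : ℝ) ^ ex s c n ≤ 2 ^ c * (n : ℝ) ^ s := by
  unfold ex
  rw [pow_add, mul_comm]
  apply mul_le_mul_of_nonneg_left _ (by positivity)
  rw [← two_rpow_log hn, ← Real.rpow_natCast]
  apply Real.rpow_le_rpow_of_exponent_le (by norm_num)
  exact Nat.floor_le (mul_nonneg hs (logb_nn n))

theorem le_ex {s : ℝ} {n : ℕ} (hn : 1 ≤ n) (c : ℕ) :
    2 ^ c * (n : ℝ) ^ s ≤ 2 * (2 : ℝ) ^ ex s c n := by
  unfold ex
  have h1 : (n : ℝ) ^ s ≤ 2 * 2 ^ ⌊s * Real.logb 2 n⌋₊ := by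
    rw [← two_rpow_log hn]
    have h2 : (2 : ℝ) * 2 ^ ⌊s * Real.logb 2 n⌋₊ = 2 ^ ((⌊s * Real.logb 2 n⌋₊ : ℝ) + 1) := by
      rw [Real.rpow_add (by norm_num), Real.rpow_one, Real.rpow_natCast, mul_comm]
    rw [h2]
    exact Real.rpow_le_rpow_of_exponent_le (by norm_num) (Nat.lt_floor_add_one _).le
  rw [pow_add]
  have h3 : (0 : ℝ) < 2 ^ c := by positivity
  nlinarith

theorem pow_le_of_log {m N : ℕ} (h1 : 1 ≤ Real.logb 2 N) (h : (m : ℝ) ≤ Real.logb 2 N) :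
    2 ^ m ≤ N := by
  have hN : 0 < N := by
    rcases Nat.eq_zero_or_pos N with rfl | h
    · norm_num at h1
    · exact h
  rw [Real.le_logb_iff_rpow_le (by norm_num) (by exact_mod_cast hN), Real.rpow_natCast] at h
  exact_mod_cast h

theorem tendsto_nat : Tendsto (fun n : ℕ => (n : ℝ)) atTop atTop := tendsto_natCast_atTop_atTop

/-- the exponents tend to infinity -/
theorem ex_large {s : ℝ} (hs : 0 < s) (c J : ℕ) : ∀ᶠ n : ℕ in atTop, J ≤ ex s c n := by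
  filter_upwards [H529R3.Gap.tendsto_log.eventually_ge_atTop ((J : ℝ) / s)] with n hn
  unfold ex
  have h1 : (J : ℝ) ≤ s * Real.logb 2 n := by
    rw [div_le_iff₀ hs] at hn
    linarith
  have h2 := Nat.le_floor h1
  omega

/-- the exponents are small -/
theorem ex_small (s : ℝ) (c : ℕ) : ∀ᶠ n : ℕ in atTop, 4 * ex s c n ≤ n := by
  have hlog2 : 0 < Real.log 2 := Real.log_pos (by norm_num)
  have h := (isLittleO_log_rpow_atTop (r := 1) one_pos).def
    (show 0 < Real.log 2 / (8 * (|s| + 1)) by positivity)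
  filter_upwards [tendsto_nat.eventually h, tendsto_nat.eventually_ge_atTop 1,
    eventually_ge_atTop (8 * c)] with n h1 h2 h3
  unfold ex
  have hl : 0 ≤ Real.log n := Real.log_nonneg h2
  rw [Real.rpow_one, Real.norm_eq_abs, Real.norm_eq_abs, abs_of_nonneg hl,
    abs_of_nonneg (show (0 : ℝ) ≤ n by linarith)] at h1
  have h4 : Real.logb 2 n ≤ n / (8 * (|s| + 1)) := by
    unfold Real.logb
    rw [div_le_iff₀ hlog2]
    calc Real.log n ≤ Real.log 2 / (8 * (|s| + 1)) * n := h1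
      _ = _ := by ring
  have hL := logb_nn n
  have h5 : s * Real.logb 2 n ≤ (n : ℝ) / 8 := by
    calc s * Real.logb 2 n ≤ (|s| + 1) * Real.logb 2 n := by
          apply mul_le_mul_of_nonneg_right _ hL
          linarith [le_abs_self s]
      _ ≤ (|s| + 1) * (n / (8 * (|s| + 1))) := mul_le_mul_of_nonneg_left h4 (by positivity)
      _ = n / 8 := by
          have : |s| + 1 ≠ 0 := by positivity
          field_simp
  have h6 : (⌊s * Real.logb 2 n⌋₊ : ℝ) ≤ (n : ℝ) / 8 := by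
    rcases le_total 0 (s * Real.logb 2 n) with h | h
    · exact (Nat.floor_le h).trans h5
    · rw [Nat.floor_of_nonpos h]
      push_cast
      positivity
  have h7 : (8 : ℝ) * ⌊s * Real.logb 2 n⌋₊ ≤ n := by linarith
  have h8 : 8 * ⌊s * Real.logb 2 n⌋₊ ≤ n := by exact_mod_cast h7
  omega

/-- the codes are permitted -/
theorem pf_ex {s ε : ℝ} (hs : 0 < s) (hε : 0 < ε) {f : ℕ → ℝ}
    (hf : ∀ᶠ N : ℕ in atTop, 2 ^ (ε * (Real.logb 2 N) ^ (1 / s)) < f N) :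
    ∃ c : ℕ, ∀ e : ℕ, ∀ᶠ n : ℕ in atTop, Pf f (e + n + 2) (ex s c n) := by
  have hs' : 0 < 1 / s := by positivity
  obtain ⟨c, hc⟩ : ∃ c : ℕ, 8 / ε ≤ ((2 : ℝ) ^ c / 2) ^ (1 / s) := by
    have h1 : Tendsto (fun c : ℕ => ((2 : ℝ) ^ c / 2) ^ (1 / s)) atTop atTop :=
      (tendsto_rpow_atTop hs').comp
        ((tendsto_pow_atTop_atTop_of_one_lt (by norm_num)).atTop_div_const (by norm_num))
    exact (h1.eventually_ge_atTop (8 / ε)).exists
  refine ⟨c, fun e => ?_⟩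
  -- exponentials beat linear functions
  have e1 : ∀ᶠ j : ℕ in atTop, (j : ℝ) ≤ ε / 2 * ((2 : ℝ) ^ j) ^ (1 / s) := by
    have hlog2 : 0 < Real.log 2 := Real.log_pos (by norm_num)
    have h := (isLittleO_rpow_exp_pos_mul_atTop 1 (mul_pos hs' hlog2)).def
      (show (0 : ℝ) < ε / 2 by positivity)
    filter_upwards [tendsto_nat.eventually h] with j h1
    rw [Real.rpow_one, Real.norm_eq_abs, Real.norm_eq_abs, abs_of_nonneg (Nat.cast_nonneg j),
      abs_of_nonneg (Real.exp_nonneg _)] at h1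
    refine h1.trans (le_of_eq ?_)
    congr 1
    rw [← Real.rpow_natCast, ← Real.rpow_mul (by norm_num),
      Real.rpow_def_of_pos (by norm_num : (0 : ℝ) < 2)]
    congr 1
    ring
  obtain ⟨J, hJ⟩ := eventually_atTop.1 e1
  obtain ⟨N₀, hN₀⟩ := eventually_atTop.1 hf
  filter_upwards [ex_large hs c (J + N₀), eventually_ge_atTop (e + 2)] with n hn hn2 j hj N hN
  have hn1 : 1 ≤ n := by omega
  have h1 : 2 ^ j ≤ 2 ^ 2 ^ j := Nat.pow_le_pow_right (by norm_num) Nat.lt_two_pow_self.le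
  have h2 : j < 2 ^ j := Nat.lt_two_pow_self
  have hNN : N₀ ≤ N := by omega
  have h3 := hN₀ N hNN
  have hNpos : 0 < N := lt_of_lt_of_le (by positivity) hN
  have h4 : (2 : ℝ) ^ j ≤ Real.logb 2 N := by
    rw [Real.le_logb_iff_rpow_le (by norm_num) (by exact_mod_cast hNpos)]
    have h5 : (2 : ℝ) ^ ((2 : ℝ) ^ j) = ((2 ^ 2 ^ j : ℕ) : ℝ) := by
      rw [Nat.cast_pow, ← Real.rpow_natCast ((2 : ℕ) : ℝ) (2 ^ j)]; push_cast; rfl
    rw [h5]
    exact_mod_cast hN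
  have h5 : ((2 : ℝ) ^ j) ^ (1 / s) ≤ (Real.logb 2 N) ^ (1 / s) :=
    Real.rpow_le_rpow (by positivity) h4 hs'.le
  have h6 : 8 / ε * n ≤ ((2 : ℝ) ^ j) ^ (1 / s) := by
    have h7 : ((2 : ℝ) ^ c / 2) * (n : ℝ) ^ s ≤ (2 : ℝ) ^ j := by
      have h8 := le_ex (s := s) hn1 c
      have h9 : (2 : ℝ) ^ ex s c n ≤ 2 ^ j := pow_le_pow_right₀ (by norm_num) hj
      linarith
    have h8 : (((2 : ℝ) ^ c / 2) * (n : ℝ) ^ s) ^ (1 / s) ≤ ((2 : ℝ) ^ j) ^ (1 / s) :=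
      Real.rpow_le_rpow (by positivity) h7 hs'.le
    have h9 : ((n : ℝ) ^ s) ^ (1 / s) = n := by
      rw [← Real.rpow_mul (Nat.cast_nonneg n), mul_one_div_cancel hs.ne', Real.rpow_one]
    rw [Real.mul_rpow (by positivity) (by positivity), h9] at h8
    exact (mul_le_mul_of_nonneg_right hc (Nat.cast_nonneg n)).trans h8
  have h7 := hJ j (by omega)
  have h8 : ((j : ℝ) + (e + n + 2 : ℕ)) ≤ ε * (Real.logb 2 N) ^ (1 / s) := by
    have h9 : (4 : ℝ) * n ≤ ε / 2 * ((2 : ℝ) ^ j) ^ (1 / s) := by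
      calc (4 : ℝ) * n = ε / 2 * (8 / ε * n) := by
            field_simp
            ring
        _ ≤ _ := mul_le_mul_of_nonneg_left h6 (by positivity)
    have h10 : (((e + n + 2 : ℕ)) : ℝ) ≤ 4 * n := by
      have : e + n + 2 ≤ 4 * n := by omega
      exact_mod_cast this
    have h11 : ε * ((2 : ℝ) ^ j) ^ (1 / s) ≤ ε * (Real.logb 2 N) ^ (1 / s) :=
      mul_le_mul_of_nonneg_left h5 hε.le
    linarith
  refine le_trans ?_ h3.le
  have h9 : ((j : ℝ) + 1) ≤ 2 ^ j := by exact_mod_cast h2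
  calc ((j : ℝ) + 1) * 2 ^ (e + n + 2) ≤ 2 ^ j * 2 ^ (e + n + 2) := by gcongr
    _ = 2 ^ ((j : ℝ) + (e + n + 2 : ℕ)) := by
        rw [Real.rpow_add (by norm_num), Real.rpow_natCast, Real.rpow_natCast]
    _ ≤ _ := Real.rpow_le_rpow_of_exponent_le (by norm_num) h8

/-- the quasi-linear bounds are small -/
theorem ql_small {s : ℝ} (hs : 1 < s) (k e c : ℕ) :
    ∀ᶠ n : ℕ in atTop, ql k n + (n + e + 2) ≤ 2 ^ ex s c n := by
  have h := (isLittleO_log_rpow_rpow_atTop (k : ℝ) (show 0 < s - 1 by linarith)).def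
    (show (0 : ℝ) < 1 / (16 * 3 ^ k) by positivity)
  have h' := (tendsto_rpow_atTop (show 0 < s - 1 by linarith)).eventually_ge_atTop
    (16 * ((e : ℝ) + 3))
  have hlog2 : 0 < Real.log 2 := Real.log_pos (by norm_num)
  filter_upwards [tendsto_nat.eventually h, tendsto_nat.eventually h',
    tendsto_nat.eventually_ge_atTop 4, eventually_ge_atTop 4] with n h1 h2 h3 h4
  have hn0 : (0 : ℝ) < n := by linarith
  have hl : 0 ≤ Real.log n := Real.log_nonneg (by linarith)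
  rw [Real.norm_eq_abs, Real.norm_eq_abs, abs_of_nonneg (Real.rpow_nonneg hl _),
    abs_of_nonneg (Real.rpow_nonneg hn0.le _), Real.rpow_natCast] at h1
  have h5 : ((Nat.log 2 n + 2 : ℕ) : ℝ) ≤ 3 * Real.log n := by
    have h6 : (Nat.log 2 n : ℝ) ≤ Real.logb 2 n := by
      rw [Real.le_logb_iff_rpow_le (by norm_num) hn0, Real.rpow_natCast]
      exact_mod_cast Nat.pow_log_le_self 2 (by omega)
    have h7 : (2 : ℝ) ≤ Real.logb 2 n := by
      rw [Real.le_logb_iff_rpow_le (by norm_num) hn0]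
      norm_num
      exact_mod_cast h3
    have h8 : Real.logb 2 n ≤ 3 / 2 * Real.log n := by
      unfold Real.logb
      rw [div_le_iff₀ hlog2]
      have h9 : (2 / 3 : ℝ) < Real.log 2 := by
        have := Real.log_two_gt_d9
        linarith
      nlinarith
    push_cast
    linarith
  have h6 : ((Nat.log 2 n + 2 : ℕ) : ℝ) ^ k ≤ (n : ℝ) ^ (s - 1) / 16 := by
    calc ((Nat.log 2 n + 2 : ℕ) : ℝ) ^ k ≤ (3 * Real.log n) ^ k :=
          pow_le_pow_left₀ (Nat.cast_nonneg _) h5 k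
      _ = 3 ^ k * (Real.log n) ^ k := mul_pow _ _ _
      _ ≤ 3 ^ k * (1 / (16 * 3 ^ k) * (n : ℝ) ^ (s - 1)) :=
          mul_le_mul_of_nonneg_left h1 (by positivity)
      _ = (n : ℝ) ^ (s - 1) / 16 := by
          have : (3 : ℝ) ^ k ≠ 0 := by positivity
          field_simp
  have h7 : (n : ℝ) ^ s = n * (n : ℝ) ^ (s - 1) := by
    conv_rhs => rw [← Real.rpow_one (n : ℝ), ← Real.rpow_mul hn0.le, one_mul,
      ← Real.rpow_add hn0]
    congr 1
    ring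
  have h8 : ((ql k n : ℕ) : ℝ) ≤ (n : ℝ) ^ s / 8 := by
    unfold ql
    push_cast at h6 ⊢
    have h9 : ((n : ℝ) + 1) ≤ 2 * n := by linarith
    have h10 : (0 : ℝ) ≤ ((Nat.log 2 n : ℝ) + 2) ^ k := by positivity
    rw [h7]
    nlinarith
  have h9 : (n : ℝ) + e + 2 ≤ (n : ℝ) ^ s / 16 := by
    rw [h7]
    have he : (0 : ℝ) ≤ e := Nat.cast_nonneg e
    nlinarith
  have h10 := le_ex (s := s) (n := n) (by omega) c
  have h11 : (1 : ℝ) ≤ 2 ^ c := one_le_pow₀ (by norm_num)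
  have h12 : (0 : ℝ) ≤ (n : ℝ) ^ s := by positivity
  have h13 : ((ql k n : ℕ) : ℝ) + (n + e + 2) ≤ (2 : ℝ) ^ ex s c n := by nlinarith
  exact_mod_cast h13

/-- the condition of the covering lemma -/
theorem null_cond {s : ℝ} (hs : 1 ≤ s) {f : ℕ → ℝ} (hf : CQ s f) (c n₁ : ℕ) : ∃ N n : ℕ, n₁ ≤ n ∧
    2 ^ (2 ^ ex s c n + 1) ≤ N ∧ 2 ^ (3 * n + 1) ≤ N ∧ f N ≤ 2 ^ (n / 2) := by
  have hs0 : 0 < s := by linarith
  have hs' : 0 < 1 / s := by positivity
  set κ : ℝ := min ((1 / (4 * 2 ^ c)) ^ (1 / s)) (1 / 8) with hκ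
  have hκ0 : 0 < κ := lt_min (by positivity) (by norm_num)
  have hκ8 : κ ≤ 1 / 8 := min_le_right _ _
  have hκs : 2 ^ c * κ ^ s ≤ 1 / 4 := by
    have h1 : κ ^ s ≤ ((1 / (4 * 2 ^ c)) ^ (1 / s) : ℝ) ^ s :=
      Real.rpow_le_rpow hκ0.le (min_le_left _ _) hs0.le
    rw [← Real.rpow_mul (by positivity), one_div_mul_cancel hs0.ne', Real.rpow_one] at h1
    calc (2 : ℝ) ^ c * κ ^ s ≤ 2 ^ c * (1 / (4 * 2 ^ c)) :=
          mul_le_mul_of_nonneg_left h1 (by positivity)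
      _ = 1 / 4 := by
          have : (2 : ℝ) ^ c ≠ 0 := by positivity
          field_simp
  have ht : Tendsto (fun N : ℕ => κ * (Real.logb 2 N) ^ (1 / s)) atTop atTop :=
    ((tendsto_rpow_atTop hs').comp H529R3.Gap.tendsto_log).const_mul_atTop hκ0
  obtain ⟨N, hfN, ⟨k1, k2⟩, k3⟩ := ((hf (κ / 4) (by positivity)).and_eventually
    (((ht.eventually_ge_atTop 4).and (ht.eventually_ge_atTop ((n₁ : ℝ) + 1))).and
      (H529R3.Gap.tendsto_log.eventually_ge_atTop 4))).exists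
  set Lg := Real.logb 2 N with hLg
  set y := Lg ^ (1 / s) with hy
  have hy0 : 0 < y := by positivity
  have hyL : y ≤ Lg := by
    calc y ≤ Lg ^ (1 : ℝ) := by
          apply Real.rpow_le_rpow_of_exponent_le (by linarith)
          rw [div_le_one hs0]
          exact hs
      _ = Lg := Real.rpow_one _
  have hys : y ^ s = Lg := by
    rw [hy, ← Real.rpow_mul (by linarith), one_div_mul_cancel hs0.ne', Real.rpow_one]
  set n := ⌊κ * y⌋₊ with hn
  have hn1 : (n : ℝ) ≤ κ * y := Nat.floor_le (by positivity)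
  have hn2 : κ * y < n + 1 := Nat.lt_floor_add_one _
  have hn3 : 1 ≤ n := Nat.one_le_iff_ne_zero.2 (by
    rintro h
    rw [h] at hn2
    norm_num at hn2
    linarith)
  refine ⟨N, n, ?_, pow_le_of_log (by linarith) ?_, pow_le_of_log (by linarith) ?_, ?_⟩
  · have : (n₁ : ℝ) ≤ n := by linarith
    exact_mod_cast this
  · have h1 := ex_le hs0.le hn3 c
    have h2 : (n : ℝ) ^ s ≤ (κ * y) ^ s := Real.rpow_le_rpow (Nat.cast_nonneg n) hn1 hs0.le
    rw [Real.mul_rpow hκ0.le hy0.le, hys] at h2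
    have h3 : (2 : ℝ) ^ c * (n : ℝ) ^ s ≤ 2 ^ c * (κ ^ s * Lg) :=
      mul_le_mul_of_nonneg_left h2 (by positivity)
    have h4 : (2 : ℝ) ^ c * (κ ^ s * Lg) ≤ 1 / 4 * Lg := by
      rw [← mul_assoc]
      exact mul_le_mul_of_nonneg_right hκs (by linarith)
    push_cast
    linarith
  · push_cast
    nlinarith
  · refine hfN.trans ?_
    rw [← Real.rpow_natCast]
    apply Real.rpow_le_rpow_of_exponent_le (by norm_num)
    have h1 : n ≤ 2 * (n / 2) + 1 := by omega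
    have h2 : (n : ℝ) ≤ 2 * ((n / 2 : ℕ) : ℝ) + 1 := by exact_mod_cast h1
    linarith

theorem null_Q {s : ℝ} (hs : 1 ≤ s) {f : ℕ → ℝ} (hf : CQ s f) (O : Set Oracle)
    (hO : ∀ A ∈ O, TimeN s A (hitLang A)ᶜ) : Null f O := by
  refine (null_iUnion (f := f) (fun c : ℕ => {A : Oracle | ∃ M : Alg,
    ADec M (ex s c) A (hitLang A)ᶜ}) fun c => ?_).mono fun A hA => ?_
  · exact null_of_V (ex_small s c) fun n₁ => null_cond hs hf c n₁
  · obtain ⟨M, c, hM⟩ := hO A hA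
    exact Set.mem_iUnion.2 ⟨c, M, hM⟩

theorem fastQ_pad {s : ℝ} (hs : 1 < s) {f : ℕ → ℝ} (hf : ¬ CQ s f) {A : Oracle} (hA : FastQ f A)
    (L : Set (List Bool)) (hL : IsNQL A L ∨ IsRQL A L) : PadIn s A L := by
  unfold CQ at hf
  push Not at hf
  obtain ⟨ε, hε, hf⟩ := hf
  obtain ⟨c, hc⟩ := pf_ex (by linarith) hε hf
  obtain ⟨e, k, h⟩ := hA L hL
  obtain ⟨n₀, hn₀⟩ := eventually_atTop.1 ((hc e).and (ql_small hs k e c))
  refine ⟨e, c, n₀, fun x hx => ?_⟩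
  obtain ⟨h1, h2⟩ := hn₀ x.length hx
  exact h x (ex s c x.length) (by omega) h1

theorem not_CQ_nonneg {s : ℝ} {f : ℕ → ℝ} (hf : ¬ CQ s f) : ∀ᶠ N : ℕ in atTop, 0 ≤ f N := by
  unfold CQ at hf
  push Not at hf
  obtain ⟨ε, hε, hf⟩ := hf
  filter_upwards [hf] with N hN
  have : (0 : ℝ) ≤ 2 ^ (ε * (Real.logb 2 N) ^ (1 / s)) := by positivity
  linarith

end Pool.Agent.TH678.TQ
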